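import Pool.Agent.W771.Reg

/-!
# The extension estimate for the paraboloid in `ℝ³` is stable under multiplication by functions with
# half a derivative in one of the two variables

Let `2 ≤ p`, `q > 3`, `q < p (q - 2)` (that is `q > 3` and `1/p < 1 - 2/q`, the open range of the
restriction conjecture for the paraboloid in `ℝ³`).  We prove the extension estimate for the
functions `F(u, v) g_1(u, v) ⋯ g_n(u, v)`, where `F(u, v) = ∫ a(u, l) b(v, l) dν(l)` with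
`a, b ∈ L^p([-1/2,1/2]; L²(ν))` and every `g_i` is bounded and has half a derivative in `L²`, either
in `v`, uniformly in `u`, without any regularity in `u`, or the other way round.
-/

set_option autoImplicit false

namespace Pool.Agent.Results.MP_b7167f_an.HalfDerivativeMultipliers

open MeasureTheory Set Complex
open scoped ENNReal NNReal

/-- The Fourier extension operator of the paraboloid in `ℝ³`,
`E f (x, y, t) = ∫ f(u, v) exp (- i (u x + v y + (u² + v²) t)) du dv`. -/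
noncomputable def ext (f : ℝ × ℝ → ℂ) (x y t : ℝ) : ℂ :=
  ∫ w : ℝ × ℝ, f w * cexp (-(I * ((w.1 * x + w.2 * y + (w.1 ^ 2 + w.2 ^ 2) * t : ℝ) : ℂ)))

/-- `g` has half a derivative in the second variable, in `L²`, with constant `K`, for every value of
the first variable: `∫ |g(u, v + h) - g(u, v)|² dv ≤ K h` for all `u ∈ [-1/2, 1/2]` and
`h ∈ [0, 1]`, the integral over the `v` with `v, v + h ∈ [-1/2, 1/2]`. -/
def HalfDerivative (K : ℝ≥0) (g : ℝ × ℝ → ℂ) : Prop :=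
  ∀ u ∈ Icc (-(1 / 2) : ℝ) (1 / 2), ∀ h ∈ Icc (0 : ℝ) 1,
    ∫⁻ v in Icc (-(1 / 2) : ℝ) (1 / 2 - h), ‖g (u, v + h) - g (u, v)‖ₑ ^ 2 ≤ ENNReal.ofReal (K * h)

theorem ext_eq (f : ℝ × ℝ → ℂ) (x y t : ℝ) : ext f x y t = Pool.Agent.W771.EE f x y t := by
  unfold ext Pool.Agent.W771.EE Pool.Agent.W771.ph
  congr 1
  ext w
  rw [← Complex.exp_add]
  congr 2
  push_cast
  ring

/-- **Products of multipliers with half a derivative in one variable.** -/
theorem result (n : ℕ) (p q : ℝ) (hp : 2 ≤ p) (hq : 3 < q) (hpq : q < p * (q - 2)) (K : ℝ≥0) :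
    ∃ C : ℝ≥0, ∀ g : Fin n → ℝ × ℝ → ℂ, (∀ i, Measurable (g i)) → (∀ i w, ‖g i w‖ ≤ 1) →
      (∀ i, HalfDerivative K (g i) ∨ HalfDerivative K (fun w => g i w.swap)) →
      ∀ (Λ : Type) [MeasurableSpace Λ] (ν : Measure Λ) [SFinite ν] (a b : ℝ → Λ → ℂ),
      Measurable (Function.uncurry a) → Measurable (Function.uncurry b) →
      (∀ u, u ∉ Icc (-(1 / 2) : ℝ) (1 / 2) → ∀ l, a u l = 0) →
      (∀ v, v ∉ Icc (-(1 / 2) : ℝ) (1 / 2) → ∀ l, b v l = 0) →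
      (∫⁻ u in Icc (-(1 / 2) : ℝ) (1 / 2), (∫⁻ l, ‖a u l‖ₑ ^ 2 ∂ν) ^ (p / 2) ≤ 1) →
      (∫⁻ v in Icc (-(1 / 2) : ℝ) (1 / 2), (∫⁻ l, ‖b v l‖ₑ ^ 2 ∂ν) ^ (p / 2) ≤ 1) →
      ∫⁻ t, ∫⁻ x, ∫⁻ y,
        ‖ext (fun w => (∫ l, a w.1 l * b w.2 l ∂ν) * ∏ i, g i w) x y t‖ₑ ^ q ≤ C := by
  obtain ⟨C, hC⟩ := Pool.Agent.W771.good_prod p hp K n q hq hpq
  refine ⟨C, fun g hg hgb hr Λ _ ν _ a b ha hb ha0 hb0 hA hB => ?_⟩
  have h := hC g hg hgb hr Λ ν a b ha hb ha0 hb0 hA hB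
  simp only [ext_eq]
  exact h

end Pool.Agent.Results.MP_b7167f_an.HalfDerivativeMultipliers
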