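import Mathlib
import Pool.Agent.Q167.MS.Three
set_option autoImplicit false

/-!
# The restriction conjecture for the paraboloid: random signs on boxes of all scales

Let `d = m + 2 ≥ 3`, write `ξ = (ξ_0, ξ') ∈ [-1,1] × [-1,1]^m`, let `Q_{k,l} ⊆ [-1,1]^m` be
axis-parallel boxes and let `g_{k,l}` be measurable functions of one variable with `|g_{k,l}| ≤ 1`.
We consider `f_ε(ξ) = ∑_k ε_k ∑_l c_{k,l} 1_{Q_{k,l}}(ξ') g_{k,l}(ξ_0)` and prove the extension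
estimate of the restriction conjecture, on average over the signs `ε_k`, for boxes with a large
overlap: one only needs `∑ c_{k,l}² |Q_{k,l}|^δ 1_{Q_{k,l}} ≤ 1`, where `(1 - δ) q > 2d/(d-1)`.
For every `q > 2d/(d-1)` there is such a `δ > 0`, and then the `Q_{k,l}` can be all the dyadic
subcubes of `[-1,1]^m`, of all sizes, with constant `c_{k,l}`. In particular the `k`-th block can be
the martingale difference `D_Q f(ξ) = ∑_{Q' child of Q} 1_{Q'}(ξ') (f_{Q'}(ξ_0) - f_Q(ξ_0))`,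
`f_Q(ξ_0) = |Q|⁻¹ ∫_Q f(ξ_0, ξ') dξ'`, of any function `f` with `|f| ≤ 1`, `Q` the `k`-th dyadic cube:
the restriction conjecture holds, in all dimensions and the full range, for Haar multipliers with
random signs in `d - 2` variables, applied to arbitrary bounded functions.
-/

namespace Pool.Agent.Results.MP_b7167f_an.RandomBoxesAllScales

open MeasureTheory Set Complex
open scoped ENNReal NNReal

/-- The extension operator of the truncated paraboloid in `ℝ^(n+1)`: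
`Ef(x,t) = ∫_{[-1,1]^n} f(ξ) exp(2πi(ξ·x + |ξ|² t)) dξ`. -/
noncomputable def ext {n : ℕ} (f : (Fin n → ℝ) → ℂ) (y : (Fin n → ℝ) × ℝ) : ℂ :=
  ∫ ξ in Icc (fun _ : Fin n => (-1 : ℝ)) (fun _ => 1),
    f ξ * cexp (2 * Real.pi * I * ((∑ j, ξ j * y.1 j + (∑ j, ξ j ^ 2) * y.2 : ℝ) : ℂ))

/-- The function `f_ε(ξ) = ∑_k ε_k ∑_l c_{k,l} 1_{Q_{k,l}}(ξ_1, ..., ξ_m) g_{k,l}(ξ_0)`, where
`Q_{k,l} = ∏_j [a_{k,l,j}, b_{k,l,j}]` and the sign `ε_k` is `1` if `ε k = true` and `-1`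
otherwise. -/
noncomputable def blocks {m N M : ℕ} (c : Fin N → Fin M → ℝ) (a b : Fin N → Fin M → Fin m → ℝ)
    (g : Fin N → Fin M → ℝ → ℂ) (ε : Fin N → Bool) (ξ : Fin (m + 1) → ℝ) : ℂ :=
  ∑ k, (if ε k then 1 else -1) * ∑ l, (c k l : ℂ) *
    (Icc (a k l) (b k l)).indicator (fun _ => g k l (ξ 0)) (fun j : Fin m => ξ j.succ)

/-- **Random signs on boxes of all scales.** Let `m ≥ 1`, `d = m + 2`, `0 ≤ δ < 1` and
`(1 - δ) q > 2d/(d-1)`. There is `C` such that for all `N`, `M`, all boxes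
`Q_{k,l} = ∏ [a_{k,l,j}, b_{k,l,j}]` in `[-1,1]^m`, all real `c_{k,l}` with
`∑_{k,l} c_{k,l}² |Q_{k,l}|^δ 1_{Q_{k,l}} ≤ 1` almost everywhere, and all measurable `g_{k,l}` with
`|g_{k,l}| ≤ 1`, the average over all `2^N` choices of signs of `‖E f_ε‖_{L^q(ℝ^d)}^q` is at most
`C M^(q/2)`. -/
theorem result (m : ℕ) (hm : 1 ≤ m) (q δ : ℝ) (hδ : 0 ≤ δ) (hδ1 : δ < 1)
    (hq : 2 * ((m : ℝ) + 2) / (m + 1) < (1 - δ) * q) :
    ∃ C : ℝ≥0, ∀ (N M : ℕ) (c : Fin N → Fin M → ℝ) (a b : Fin N → Fin M → Fin m → ℝ)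
      (g : Fin N → Fin M → ℝ → ℂ),
      (∀ k l j, -1 ≤ a k l j ∧ a k l j ≤ b k l j ∧ b k l j ≤ 1) →
      (∀ᵐ ξ : Fin m → ℝ, ∑ k, ∑ l, c k l ^ 2 * (∏ j, (b k l j - a k l j)) ^ δ *
        (Icc (a k l) (b k l)).indicator (fun _ => (1 : ℝ)) ξ ≤ 1) →
      (∀ k l, Measurable (g k l)) → (∀ k l y, ‖g k l y‖ ≤ 1) →
        ((2 : ℝ≥0∞) ^ N)⁻¹ * ∑ ε : Fin N → Bool,
          ∫⁻ y : (Fin (m + 1) → ℝ) × ℝ, ‖ext (blocks c a b g ε) y‖ₑ ^ q ≤
            C * (M : ℝ≥0∞) ^ (q / 2) := by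
  obtain ⟨C, hC, hCC⟩ := Pool.Agent.Q167.MS.ms_avg m hm q δ hδ hδ1 hq
  refine ⟨C.toNNReal, ?_⟩
  intro N M c a b g hab hov hgm hgb
  rw [ENNReal.coe_toNNReal hC]
  have h1 := hCC N M c a b g ⟨fun p j => hab p.1 p.2 j, fun p => hgm p.1 p.2,
    fun p => hgb p.1 p.2, by
      filter_upwards [hov] with ξ hξ
      rw [Fintype.sum_prod_type]
      exact hξ⟩
  have h2 : ∀ ε : Fin N → Bool, blocks c a b g ε = fun ξ => ∑ k,
      (Pool.Agent.H728R3.SR.sg (ε k) : ℂ) * Pool.Agent.Q167.MS.blk (c k) (a k) (b k) (g k) ξ := by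
    intro ε
    ext ξ
    unfold blocks Pool.Agent.Q167.MS.blk
    apply Finset.sum_congr rfl
    intro k _
    have h3 : ((if ε k then 1 else -1 : ℂ)) = (Pool.Agent.H728R3.SR.sg (ε k) : ℂ) := by
      unfold Pool.Agent.H728R3.SR.sg
      split_ifs <;> simp
    rw [h3]
    rfl
  simp only [h2]
  exact h1

end Pool.Agent.Results.MP_b7167f_an.RandomBoxesAllScales
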