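import Pool.Agent.H728R3.SR.L

/-!
# The restriction conjecture for the paraboloid in `ℝ³` on average over signs on strips, from `L^q`
# to `L^q`

Let `q > 3`.  Let `(a_k, b_k] ⊆ [-1, 1]`, `k < N`, be disjoint intervals and let `g_k` be measurable
functions on `[-1, 1]`, without any bound.  For signs `ε_k` we consider the function `f_ε` on
`[-1, 1]²` with the values `ε_k g_k(v)` on the strip `a_k < u ≤ b_k`.  The mean over all `ε` of
`∫ |E f_ε|^q` is at most `C(q) ∫ |f|^q`, `f = f_{(1, …, 1)}`; this is the diagonal estimate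
`L^q → L^q` in the full range of the restriction conjecture, without logarithms.
-/

set_option autoImplicit false

namespace Pool.Agent.Results.MP_b7167f_an.RandomSignsOnStrips

open MeasureTheory Set Complex
open scoped ENNReal NNReal

/-- The Fourier extension operator of the paraboloid in `ℝ³`,
`E f (x, y, t) = ∫ f(u, v) exp (- i (u x + v y + (u² + v²) t)) du dv`. -/
noncomputable def ext (f : ℝ × ℝ → ℂ) (ξ : ℝ × ℝ × ℝ) : ℂ :=
  ∫ w : ℝ × ℝ, cexp (-I * (w.1 * ξ.1 + w.2 * ξ.2.1 + (w.1 ^ 2 + w.2 ^ 2) * ξ.2.2)) * f w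

/-- The function with the values `± g_k(v)` on the strips `a_k < u ≤ b_k`, with the sign `+` if
`ε k = true`. -/
noncomputable def strips {N : ℕ} (a b : Fin N → ℝ) (g : Fin N → ℝ → ℂ) (ε : Fin N → Bool)
    (w : ℝ × ℝ) : ℂ :=
  ∑ k, (if ε k then 1 else -1) * (Ioc (a k) (b k)).indicator (fun _ => g k w.2) w.1

theorem strips_eq {N : ℕ} (a b : Fin N → ℝ) (g : Fin N → ℝ → ℂ) (ε : Fin N → Bool) :
    strips a b g ε = Pool.Agent.H728R3.SR.semi a b g ε := by
  ext w
  unfold strips Pool.Agent.H728R3.SR.semi Pool.Agent.H728R3.SR.sg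
  refine Finset.sum_congr rfl fun k _ => ?_
  by_cases h : ε k = true <;> simp [h]

/-- **Random signs on strips, `L^q → L^q`.** -/
theorem result (q : ℝ) (hq : 3 < q) :
    ∃ C : ℝ≥0, ∀ (N : ℕ) (a b : Fin N → ℝ) (g : Fin N → ℝ → ℂ),
      (∀ k, -1 ≤ a k ∧ a k ≤ b k ∧ b k ≤ 1) →
      (∀ k l, k ≠ l → Disjoint (Ioc (a k) (b k)) (Ioc (a l) (b l))) →
      (∀ k, Measurable (g k)) → (∀ k y, 1 < |y| → g k y = 0) →
      ((2 : ℝ≥0∞) ^ N)⁻¹ * ∑ ε : Fin N → Bool, ∫⁻ ξ, ‖ext (strips a b g ε) ξ‖ₑ ^ q ≤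
        C * ∫⁻ w, ‖strips a b g (fun _ => true) w‖ₑ ^ q := by
  obtain ⟨K, hK, -, hKK⟩ := Pool.Agent.H728R3.SR.main_W q hq
  refine ⟨K.toNNReal, fun N a b g hab hd hg h0 => ?_⟩
  have hI : Pool.Agent.H728R3.SR.Itv a b :=
    ⟨fun k => (hab k).1, fun k => (hab k).2.1, fun k => (hab k).2.2, fun k l hkl => hd k l hkl⟩
  rw [ENNReal.coe_toNNReal hK]
  have h := hKK N a b g hI hg h0
  have h2 := Pool.Agent.H728R3.SR.semi_norm hI hg q (by linarith) (fun _ => true)
  simp only [strips_eq]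
  rw [h2]
  exact h

end Pool.Agent.Results.MP_b7167f_an.RandomSignsOnStrips
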