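import Mathlib
import Pool.Agent.Q167.RT.Three
set_option autoImplicit false

/-!
# The restriction conjecture for the paraboloid for random sums of tensors

Let `n = d - 1 ≥ 2` and `q > 2d/(d-1) = 2(n+1)/n`. We prove the extension estimate of the
restriction conjecture in `ℝ^d`, in its full range, on average over independent signs, for

`f_ε(ξ) = ∑_k ∑_l ε_{k,l} [M_k(a_{k,1}(ξ_1), …, a_{k,n}(ξ_n))]_l`,

where `M_k : H^n → ℂ^L` is multilinear of norm at most one (`H` is any Hilbert space), the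
`a_{k,j}` are arbitrary measurable functions of one variable with values in the unit ball of `H`,
and for each `k` one coordinate `j = i(k)` is chosen such that
`∑_{k : i(k) = j} ‖a_{k,j}(u)‖² ≤ 1` for all `j` and `u`; there is no other condition on the number
or the size of the terms.

For `H = ℂ`, `L = 1` these are the sums `∑_k ε_k a_{k,1}(ξ_1) ⋯ a_{k,n}(ξ_n)`. For instance, for any
`f` one can take `∑_k ε_k f_k(ξ_1) exp(πi k·(ξ_2, …, ξ_n))`, where `f_k(ξ_1)`, `k ∈ ℤ^(n-1)`, are the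
Fourier coefficients of `f` in the last `n - 1 = d - 2` variables.
-/

namespace Pool.Agent.Results.MP_b7167f_an.RandomTensors

open MeasureTheory Set Complex
open scoped ENNReal NNReal
open Pool.Agent.TH277

/-- The extension operator of the truncated paraboloid in `ℝ^(n+1)`:
`Ef(x,t) = ∫_{[-1,1]^n} f(ξ) exp(2πi(ξ·x + |ξ|² t)) dξ`. -/
noncomputable def ext {n : ℕ} (f : (Fin n → ℝ) → ℂ) (y : (Fin n → ℝ) × ℝ) : ℂ :=
  ∫ ξ in Icc (fun _ : Fin n => (-1 : ℝ)) (fun _ => 1),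
    f ξ * cexp (2 * Real.pi * I * ((∑ j, ξ j * y.1 j + (∑ j, ξ j ^ 2) * y.2 : ℝ) : ℂ))

/-- The random sum of tensors
`f_ε(ξ) = ∑_{(k,l)} ε_{k,l} [M_k(a_{k,1}(ξ_1), …, a_{k,n}(ξ_n))]_l`; the sign `ε_{k,l}` is `1` if
`ε (k, l) = true` and `-1` otherwise. -/
noncomputable def tensors {n N L : ℕ} {H : Type} [NormedAddCommGroup H] [InnerProductSpace ℂ H]
    (M : Fin N → ContinuousMultilinearMap ℂ (fun _ : Fin n => H) (EuclideanSpace ℂ (Fin L)))
    (a : Fin N → Fin n → ℝ → H) (ε : Fin N × Fin L → Bool) (ξ : Fin n → ℝ) : ℂ :=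
  ∑ p : Fin N × Fin L, (if ε p then 1 else -1) * M p.1 (fun j => a p.1 j (ξ j)) p.2

/-- **The restriction conjecture for random sums of tensors.** Let `n ≥ 2`, `d = n + 1` and
`q > 2d/(d-1)`. There is `C` such that for all `N`, `L`, all Hilbert spaces `H`, all multilinear
`M_k : H^n → ℂ^L` with `‖M_k(x)‖ ≤ ∏ ‖x_j‖`, all `i : {1, …, N} → {1, …, n}` and all measurable
`a_{k,j}` with `‖a_{k,j}‖ ≤ 1` on `[-1,1]` and `∑_{k : i(k) = j} ‖a_{k,j}‖² ≤ 1` on `[-1,1]` for
every `j`, the average over all `2^(NL)` choices of signs of `‖E f_ε‖_{L^q(ℝ^d)}^q` is at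
most `C`. -/
theorem result (n : ℕ) (hn : 2 ≤ n) (q : ℝ) (hq : 2 * ((n : ℝ) + 1) / n < q) :
    ∃ C : ℝ≥0, ∀ (H : Type) [NormedAddCommGroup H] [InnerProductSpace ℂ H] [CompleteSpace H]
      (N L : ℕ)
      (M : Fin N → ContinuousMultilinearMap ℂ (fun _ : Fin n => H) (EuclideanSpace ℂ (Fin L)))
      (a : Fin N → Fin n → ℝ → H) (i : Fin N → Fin n),
      (∀ k x, ‖M k x‖ ≤ ∏ j, ‖x j‖) → (∀ k j, StronglyMeasurable (a k j)) →
      (∀ k j, ∀ u ∈ Icc (-1 : ℝ) 1, ‖a k j u‖ ≤ 1) →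
      (∀ j, ∀ u ∈ Icc (-1 : ℝ) 1, ∑ k with i k = j, ‖a k j u‖ ^ 2 ≤ 1) →
        ((2 : ℝ≥0∞) ^ (N * L))⁻¹ * ∑ ε : Fin N × Fin L → Bool,
          ∫⁻ y : (Fin n → ℝ) × ℝ, ‖ext (tensors M a ε) y‖ₑ ^ q ≤ C := by
  obtain ⟨C, hC, hCC⟩ := Pool.Agent.Q167.RT.avg n hn q hq
  refine ⟨C.toNNReal, ?_⟩
  intro H _ _ _ N L M a i hM ham hab hi
  rw [ENNReal.coe_toNNReal hC]
  -- truncations
  set a' : Fin N → Fin n → ℝ → H := fun k j => (Icc (-1 : ℝ) 1).indicator (a k j) with ha'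
  have hA : ∀ k j, HT.Adm (a' k j) := by
    intro k j
    refine ⟨(ham k j).indicator measurableSet_Icc, fun u => ?_⟩
    by_cases h : u ∈ Icc (-1 : ℝ) 1
    · simp only [ha', indicator_of_mem h]
      exact hab k j u h
    · simp only [ha', indicator_of_notMem h, norm_zero]
      exact zero_le_one
  have hI : ∀ j u, ∑ k with i k = j, ‖a' k j u‖ ^ 2 ≤ 1 := by
    intro j u
    by_cases h : u ∈ Icc (-1 : ℝ) 1
    · simp only [ha', indicator_of_mem h]
      exact hi j u h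
    · simp only [ha', indicator_of_notMem h, norm_zero]
      simp
  refine le_trans (le_of_eq ?_) (hCC H N L M a' i hM hA hI)
  congr 1
  apply Finset.sum_congr rfl
  intro ε _
  apply lintegral_congr
  intro y
  congr 2
  unfold ext HT.EE tensors
  apply setIntegral_congr_fun measurableSet_Icc
  intro ξ hξ
  have hc : ∀ m, ξ m ∈ Icc (-1 : ℝ) 1 := fun m => ⟨hξ.1 m, hξ.2 m⟩
  have e1 : ∀ k, (fun m => a' k m (ξ m)) = fun m => a k m (ξ m) := by
    intro k
    ext m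
    simp only [ha', indicator_of_mem (hc m)]
  have e2 : ∀ b : Bool, (Pool.Agent.H728R3.SR.sg b : ℂ) = if b then 1 else -1 := by
    intro b
    unfold Pool.Agent.H728R3.SR.sg
    split_ifs <;> simp
  simp only [e1, e2]
  rw [mul_comm]
  rfl

end Pool.Agent.Results.MP_b7167f_an.RandomTensors
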